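import Pool.Agent.R977.SpanReg

open MeasureTheory ProbabilityTheory Filter Topology Set
open scoped ENNReal NNReal

namespace Pool.Agent.Results.MP_367e1f_pr.RegularClosed

/-- The span set `{t - s : 0 ≤ s ≤ t ≤ 1, f s = f t}` of a path, as a subset of `ℝ`. -/
def spanSet (f : ℝ≥0 → ℝ) : Set ℝ :=
  {u | ∃ s t : ℝ≥0, s ≤ t ∧ t ≤ 1 ∧ f s = f t ∧ u = (t : ℝ) - s}

/-- **Full answer to Q1 (TRUE).** For a standard linear Brownian motion `B`, almost surely the span
set `Sp^{[0,1]}(1) = {t - s : 0 ≤ s ≤ t ≤ 1, B_s = B_t}` is equal to the closure of its interior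
(interior and closure in `ℝ`). -/
theorem result {Ω : Type*} [MeasurableSpace Ω] {P : Measure Ω} {B : ℝ≥0 → Ω → ℝ}
    (hB : IsBrownianReal B P) :
    ∀ᵐ ω ∂P, spanSet (fun t => B t ω) = closure (interior (spanSet fun t => B t ω)) := by
  obtain ⟨B', hB', hBB'⟩ := Pool.Agent.R974.Span.good_version hB
  filter_upwards [hBB', Pool.Agent.R977.SpanReg.ae_regular hB'] with ω h1 h2
  have h3 : (fun t => B t ω) = fun t => B' t ω := by
    funext t
    exact (h1 t).symm
  rw [h3]
  exact h2

end Pool.Agent.Results.MP_367e1f_pr.RegularClosed
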